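import Pool.Agent.Helper16.KS.StP

/-!
# Project KS: the events `crude` and `rpart` (EvCrude, EvRPart) from the first moments
-/

set_option autoImplicit false
open scoped Classical

namespace Pool.Agent.Helper26.KS

open Pool.Agent.Helper16.KS Pool.Agent.Helper62.KS Pool.Agent.Helper33.KS

/-- upper tail with a power saving -/
theorem tail_pow (ρ : ℝ) (hρ : 0 < ρ) : ∃ K0 : ℕ, ∀ k0 : ℕ, K0 ≤ k0 → ∀ k : ℕ,
    (k0 : ℝ) / 2 ≤ k → ∀ P : ℕ → ℝ, (∀ i, 0 ≤ P i ∧ P i ≤ 1) →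
    ∀ {τ : Type} (T : Finset τ) (w : τ → ℝ) (Su : τ → Finset ℕ), (∀ t ∈ T, 0 ≤ w t) →
    (∀ t ∈ T, ((Su t).card : ℝ) ≤ 5 * (k + 2) / k0) → ∀ L l : ℝ, 0 < l →
    L ≤ l * (2 : ℝ) ^ (-(ρ * k)) →
    (∀ A : Finset ℕ,
      ∑ t ∈ T.filter (fun t => A ⊆ Su t), w t * ∏ i ∈ Su t \ A, P i ≤ L) →
    pr P {R | l ≤ YY T w Su R} ≤ (2 : ℝ) ^ (-(4 * (k : ℝ))) := by
  obtain ⟨M, hM⟩ := exists_nat_ge (8 / ρ)
  obtain ⟨K1, hK1⟩ := exists_nat_ge (20 * (M : ℝ) / ρ)
  refine ⟨K1 + 4, ?_⟩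
  intro k0 hk0 k hk P hP τ T w Su hw hS L l hl hLl hL
  have hk0r : ((K1 : ℝ) + 4) ≤ k0 := by exact_mod_cast hk0
  have hK1n : (0 : ℝ) ≤ K1 := Nat.cast_nonneg _
  have hk0p : (0 : ℝ) < k0 := by linarith
  have hk2 : (2 : ℝ) ≤ k := by linarith
  have hMn : (0 : ℝ) ≤ M := Nat.cast_nonneg _
  have hρM : 20 * (M : ℝ) ≤ ρ * k0 := by
    have h1 : 20 * (M : ℝ) / ρ ≤ k0 := by linarith
    rw [div_le_iff₀ hρ] at h1
    linarith
  have hM8 : 8 ≤ ρ * M := by
    rw [div_le_iff₀ hρ] at hM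
    linarith
  set D : ℕ := ⌊5 * ((k : ℝ) + 2) / k0⌋₊ with hD
  have hDle : (D : ℝ) ≤ 5 * ((k : ℝ) + 2) / k0 := Nat.floor_le (by positivity)
  have hS' : ∀ t ∈ T, (Su t).card ≤ D := fun t ht => Nat.le_floor (hS t ht)
  have h1 := pr_upper P hP T w Su hw D hS' L (fun A => by
    have := hL A
    convert this) M l hl
  refine h1.trans ?_
  have hDM : (D : ℝ) * M ≤ ρ * k / 2 := by
    have h2 : (D : ℝ) * M ≤ 5 * ((k : ℝ) + 2) / k0 * M := mul_le_mul_of_nonneg_right hDle hMn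
    refine h2.trans ?_
    rw [div_mul_eq_mul_div, div_le_iff₀ hk0p]
    have h3 : 5 * ((k : ℝ) + 2) * M ≤ 10 * k * M := by
      apply mul_le_mul_of_nonneg_right _ hMn
      linarith
    have h4 : (20 * (M : ℝ)) * k ≤ (ρ * k0) * k := mul_le_mul_of_nonneg_right hρM (by linarith)
    nlinarith
  have hL0 : 0 ≤ L := le_trans (Finset.sum_nonneg fun t ht =>
    mul_nonneg (hw t (Finset.mem_filter.mp ht).1) (Finset.prod_nonneg fun i _ => (hP i).1)) (hL ∅)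
  have h5 : (2 : ℝ) ^ (D * M) * L / l ≤ (2 : ℝ) ^ (-(ρ * k / 2)) := by
    rw [div_le_iff₀ hl]
    have h6 : (2 : ℝ) ^ (D * M) ≤ (2 : ℝ) ^ (ρ * k / 2) := by
      rw [← Real.rpow_natCast]
      apply Real.rpow_le_rpow_of_exponent_le (by norm_num)
      push_cast
      exact hDM
    calc (2 : ℝ) ^ (D * M) * L ≤ (2 : ℝ) ^ (ρ * k / 2) * (l * (2 : ℝ) ^ (-(ρ * k))) :=
          mul_le_mul h6 hLl hL0 (by positivity)
      _ = ((2 : ℝ) ^ (ρ * k / 2) * (2 : ℝ) ^ (-(ρ * k))) * l := by ring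
      _ = (2 : ℝ) ^ (-(ρ * k / 2)) * l := by
          rw [← Real.rpow_add (by norm_num)]
          congr 2
          ring
  have h7 : ((2 : ℝ) ^ (D * M) * L / l) ^ M ≤ ((2 : ℝ) ^ (-(ρ * k / 2))) ^ M :=
    pow_le_pow_left₀ (by positivity) h5 M
  refine h7.trans ?_
  rw [← Real.rpow_natCast, ← Real.rpow_mul (by norm_num)]
  apply Real.rpow_le_rpow_of_exponent_le (by norm_num)
  nlinarith

/-- union bound over the windows -/
theorem union_win (k : ℕ) (hk : 2 ≤ k) (P : ℕ → ℝ) (cond : ℕ → ℕ → Prop)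
    (hc : ∀ x h, cond x h → x < 2 ^ (k + 1) ∧ h < 2 ^ (k + 1)) (F : ℕ → ℕ → Set (Set ℕ))
    (h : ∀ x h, cond x h → pr P (F x h) ≤ (2 : ℝ) ^ (-(4 * (k : ℝ)))) :
    pr P {R | ∃ x h, cond x h ∧ R ∈ F x h} ≤ (2 : ℝ) ^ (-(1 * (k : ℝ))) := by
  set s : Finset (ℕ × ℕ) := ((Finset.range (2 ^ (k + 1))) ×ˢ (Finset.range (2 ^ (k + 1)))).filter
    (fun y => cond y.1 y.2) with hs
  have h1 : {R : Set ℕ | ∃ x h, cond x h ∧ R ∈ F x h} ⊆ ⋃ y ∈ s, F y.1 y.2 := by
    rintro R ⟨x, h', hxh, hR⟩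
    obtain ⟨hx1, hx2⟩ := hc x h' hxh
    rw [Set.mem_iUnion₂]
    refine ⟨(x, h'), ?_, hR⟩
    rw [hs, Finset.mem_filter, Finset.mem_product, Finset.mem_range, Finset.mem_range]
    exact ⟨⟨hx1, hx2⟩, hxh⟩
  have h2 := pr_biUnion_le_card P s (fun y => F y.1 y.2) ((2 : ℝ) ^ (-(4 * (k : ℝ))))
    (fun y hy => h y.1 y.2 (Finset.mem_filter.mp hy).2)
  refine (pr_mono P h1).trans (h2.trans ?_)
  have h3 : (s.card : ℝ) ≤ (2 : ℝ) ^ (2 * (k : ℝ) + 2) := by
    have h4 : s.card ≤ 2 ^ (k + 1) * 2 ^ (k + 1) := by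
      refine (Finset.card_filter_le _ _).trans ?_
      rw [Finset.card_product, Finset.card_range]
    have h5 : (s.card : ℝ) ≤ ((2 ^ (k + 1) * 2 ^ (k + 1) : ℕ) : ℝ) := by exact_mod_cast h4
    refine h5.trans (le_of_eq ?_)
    push_cast
    rw [← pow_add, ← Real.rpow_natCast]
    congr 1
    push_cast
    ring
  have hk1 : (2 : ℝ) ≤ k := by exact_mod_cast hk
  calc (s.card : ℝ) * (2 : ℝ) ^ (-(4 * (k : ℝ)))
      ≤ (2 : ℝ) ^ (2 * (k : ℝ) + 2) * (2 : ℝ) ^ (-(4 * (k : ℝ))) :=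
        mul_le_mul_of_nonneg_right h3 (by positivity)
    _ = (2 : ℝ) ^ (2 - 2 * (k : ℝ)) := by
        rw [← Real.rpow_add (by norm_num)]
        congr 1
        ring
    _ ≤ _ := by
        apply Real.rpow_le_rpow_of_exponent_le (by norm_num)
        linarith

theorem card_le_omega {k0 k x h n : ℕ} (hk0 : 1 ≤ k0) (hn0 : n ≠ 0) (hn : Sys.rough k0 n)
    (hx : x < 2 ^ (k + 1)) (hh : h ≤ x) (hnx : n ∈ Finset.Ico x (x + h)) {D : Finset ℕ}
    (hD : D ⊆ n.primeFactors) : ((D.card : ℕ) : ℝ) ≤ 5 * (k + 2) / k0 := by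
  have h1 : n < 2 ^ (k + 1 + 1) := by
    have h2 := (Finset.mem_Ico.mp hnx).2
    have h3 : 2 ^ (k + 1 + 1) = 2 ^ (k + 1) + 2 ^ (k + 1) := by ring
    omega
  have h2 := Sys.rough_omega_le hk0 hn0 hn h1
  have h3 : D.card ≤ n.primeFactorsList.length := by
    refine (Finset.card_le_card hD).trans ?_
    exact List.toFinset_card_le _
  have h4 : ((D.card : ℕ) : ℝ) ≤ (n.primeFactorsList.length : ℝ) := by exact_mod_cast h3
  refine h4.trans (h2.trans (le_of_eq ?_))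
  push_cast
  ring

theorem prod_PP_le (S : Sys) (k0 : ℕ) (A D : Finset ℕ) :
    ∏ i ∈ D \ A, S.PP k0 i ≤ S.pc A D := by
  unfold Sys.pc
  exact Finset.prod_le_prod (fun i _ => (S.PP_mem k0 i).1) fun i _ => S.PP_le k0 i

/-- EvCrude from Crude1 -/
theorem evCrude (hC : Crude1) : EvCrude := by
  intro S
  obtain ⟨K1, hK1⟩ := hC S
  obtain ⟨K2, hK2⟩ := tail_pow (S.tau / 2) (by have := S.tau_pos; linarith)
  refine ⟨1, one_pos, K1 + K2 + 4, ?_⟩
  intro k0 hk0 k hk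
  have hk0r : (4 : ℝ) ≤ k0 := by exact_mod_cast (by omega : 4 ≤ k0)
  have hk2' : (2 : ℝ) ≤ k := by linarith
  have hk2 : 2 ≤ k := by exact_mod_cast hk2'
  set cond : ℕ → ℕ → Prop := fun x h => 2 ^ k ≤ x ∧ x < 2 ^ (k + 1) ∧
    (2 : ℝ) ^ ((1/2 - 3 * S.d) * k) ≤ h ∧ h ≤ x with hcond
  set F : ℕ → ℕ → Set (Set ℕ) := fun x h => {R | h * (2 : ℝ) ^ ((S.s - 1 + 7 * S.tau) * k) ≤
    ∑ n ∈ Finset.Ico x (x + h), CM (S.Fh k0 R) n} with hF
  refine (pr_mono _ ?_).trans (union_win k hk2 (S.PP k0) cond ?_ F ?_)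
  · rintro R ⟨x, h, h1, h2, h3, h4, h5⟩
    exact ⟨x, h, ⟨h1, h2, h3, h4⟩, h5.le⟩
  · rintro x h ⟨h1, h2, h3, h4⟩
    exact ⟨h2, lt_of_le_of_lt h4 h2⟩
  · rintro x h ⟨h1, h2, h3, h4⟩
    have hh0 : (0 : ℝ) < h := lt_of_lt_of_le (by positivity) h3
    set T : Finset (Σ _ : ℕ, Finset ℕ) :=
      ((Finset.Ico x (x + h)).filter (Sys.rough k0)).sigma (fun n => n.primeFactors.powerset)
      with hT
    have hx0 : 0 < x := lt_of_lt_of_le (by positivity) h1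
    have key := hK2 k0 (by omega) k hk (S.PP k0) (S.PP_mem k0) T
      (fun t => S.Fe t.2 t.1) (fun t => t.2) (fun t _ => S.Fe_nonneg _ _) ?_
      (h * (2 : ℝ) ^ ((S.s - 1 + 6.5 * S.tau) * k)) (h * (2 : ℝ) ^ ((S.s - 1 + 7 * S.tau) * k))
      (by positivity) ?_ ?_
    · refine (pr_mono _ ?_).trans key
      intro R hR
      have hR' : h * (2 : ℝ) ^ ((S.s - 1 + 7 * S.tau) * k) ≤
        ∑ n ∈ Finset.Ico x (x + h), CM (S.Fh k0 R) n := hR
      refine hR'.trans ?_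
      unfold YY
      rw [hT, Finset.sum_sigma]
      have h6 : ∑ n ∈ Finset.Ico x (x + h), CM (S.Fh k0 R) n =
          ∑ n ∈ (Finset.Ico x (x + h)).filter (Sys.rough k0), CM (S.Fh k0 R) n := by
        rw [Finset.sum_filter]
        refine Finset.sum_congr rfl fun n hn => ?_
        split_ifs with hr
        · rfl
        · refine S.CM_Fh_eq_zero k0 R ?_ hr
          have := (Finset.mem_Ico.mp hn).1
          omega
      rw [h6]
      refine Finset.sum_le_sum fun n hn => ?_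
      refine (S.CM_Fh_le k0 R (Finset.mem_filter.mp hn).2).trans (le_of_eq ?_)
      rw [Finset.sum_filter]
      refine Finset.sum_congr rfl fun D _ => ?_
      show (if ∀ p ∈ D, p ∈ R then S.Fe D n else 0) = S.Fe D n * ind R D
      unfold ind
      by_cases hD : ∀ p ∈ D, p ∈ R
      · have hD' : (D : Set ℕ) ⊆ R := fun p hp => hD p (Finset.mem_coe.mp hp)
        rw [if_pos hD, if_pos hD', mul_one]
      · have hD' : ¬ (D : Set ℕ) ⊆ R := fun h => hD fun p hp => h (Finset.mem_coe.mpr hp)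
        rw [if_neg hD, if_neg hD', mul_zero]
    · rintro ⟨n, D⟩ ht
      rw [hT, Finset.mem_sigma, Finset.mem_filter, Finset.mem_powerset] at ht
      have hn0 : n ≠ 0 := by
        have h10 : x ≤ n := (Finset.mem_Ico.mp ht.1.1).1
        omega
      exact card_le_omega (by omega) hn0 ht.1.2 h2 h4 ht.1.1 ht.2
    · rw [mul_assoc, ← Real.rpow_add (by norm_num)]
      apply mul_le_mul_of_nonneg_left _ hh0.le
      apply Real.rpow_le_rpow_of_exponent_le (by norm_num)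
      apply le_of_eq
      ring
    · intro A
      refine le_trans ?_ (hK1 k0 (by omega) k x h hk h1 h2 h3 h4 A)
      unfold Sys.CP
      rw [Finset.sum_filter, hT, Finset.sum_sigma]
      refine Finset.sum_le_sum fun n _ => ?_
      rw [← Finset.sum_filter]
      refine Finset.sum_le_sum_of_subset_of_nonneg ?_ ?_ |>.trans
        (Finset.sum_le_sum (s := n.primeFactors.powerset.filter (fun D => A ⊆ D))
          fun D _ => ?_)
      · exact fun D hD => hD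
      · intro D _ _
        exact mul_nonneg (S.Fe_nonneg _ _) (Finset.prod_nonneg fun i _ => (S.PP_mem k0 i).1)
      · exact mul_le_mul_of_nonneg_left (prod_PP_le S k0 A D) (S.Fe_nonneg _ _)

/-- EvRPart from RPart1 -/
theorem evRPart (hC : RPart1) : EvRPart := by
  intro S
  obtain ⟨K1, hK1⟩ := hC S
  obtain ⟨K2, hK2⟩ := tail_pow (S.tau / 20) (by have := S.tau_pos; linarith)
  refine ⟨1, one_pos, K1 + K2 + 4, ?_⟩
  intro k0 hk0 k hk
  have hk0r : (4 : ℝ) ≤ k0 := by exact_mod_cast (by omega : 4 ≤ k0)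
  have hk2' : (2 : ℝ) ≤ k := by linarith
  have hk2 : 2 ≤ k := by exact_mod_cast hk2'
  set cond : ℕ → ℕ → Prop := fun x h => 2 ^ k ≤ x ∧ x < 2 ^ (k + 1) ∧
    (2 : ℝ) ^ ((1/2 - 3 * S.d) * k) ≤ h ∧ h ≤ x with hcond
  set F : ℕ → ℕ → Set (Set ℕ) := fun x h => {R | h * (2 : ℝ) ^ ((S.s - 1 - S.tau / 20) * k) ≤
    ∑ n ∈ (Finset.Ico x (x + h)).filter (Sys.rough k0),
      ∑ e ∈ n.divisors.filter (fun e : ℕ => (2 : ℝ) ^ ((k : ℝ) / 8) ≤ (e : ℝ) ∧ inR R e),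
        S.base e * ((n / e : ℕ) : ℝ) ^ (S.s - 1)} with hF
  refine (pr_mono _ ?_).trans (union_win k hk2 (S.PP k0) cond ?_ F ?_)
  · rintro R ⟨x, h, h1, h2, h3, h4, h5⟩
    exact ⟨x, h, ⟨h1, h2, h3, h4⟩, h5.le⟩
  · rintro x h ⟨h1, h2, h3, h4⟩
    exact ⟨h2, lt_of_le_of_lt h4 h2⟩
  · rintro x h ⟨h1, h2, h3, h4⟩
    have hh0 : (0 : ℝ) < h := lt_of_lt_of_le (by positivity) h3
    set T : Finset (Σ _ : ℕ, ℕ) :=
      ((Finset.Ico x (x + h)).filter (Sys.rough k0)).sigma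
        (fun n => n.divisors.filter (fun e : ℕ => (2 : ℝ) ^ ((k : ℝ) / 8) ≤ (e : ℝ))) with hT
    have hx0 : 0 < x := lt_of_lt_of_le (by positivity) h1
    have hw0 : ∀ t : (Σ _ : ℕ, ℕ), 0 ≤ S.base t.2 * ((t.1 / t.2 : ℕ) : ℝ) ^ (S.s - 1) := fun t =>
      mul_nonneg (S.base_nonneg _) (Real.rpow_nonneg (Nat.cast_nonneg _) _)
    have key := hK2 k0 (by omega) k hk (S.PP k0) (S.PP_mem k0) T
      (fun t => S.base t.2 * ((t.1 / t.2 : ℕ) : ℝ) ^ (S.s - 1)) (fun t => t.2.primeFactors)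
      (fun t _ => hw0 t) ?_
      (h * (2 : ℝ) ^ ((S.s - 1 - S.tau / 10) * k)) (h * (2 : ℝ) ^ ((S.s - 1 - S.tau / 20) * k))
      (by positivity) ?_ ?_
    · refine (pr_mono _ ?_).trans key
      intro R hR
      have hR' : h * (2 : ℝ) ^ ((S.s - 1 - S.tau / 20) * k) ≤
        ∑ n ∈ (Finset.Ico x (x + h)).filter (Sys.rough k0),
      ∑ e ∈ n.divisors.filter (fun e : ℕ => (2 : ℝ) ^ ((k : ℝ) / 8) ≤ (e : ℝ) ∧ inR R e),
        S.base e * ((n / e : ℕ) : ℝ) ^ (S.s - 1) := hR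
      refine hR'.trans ?_
      unfold YY
      rw [hT, Finset.sum_sigma]
      refine Finset.sum_le_sum fun n hn => ?_
      rw [← Finset.filter_filter, Finset.sum_filter]
      refine Finset.sum_le_sum fun e he => ?_
      have he0 : e ≠ 0 := by
        have := Nat.dvd_of_mem_divisors (Finset.mem_filter.mp he).1
        rintro rfl
        have h8 := Nat.eq_zero_of_zero_dvd this
        have := (Finset.mem_Ico.mp (Finset.mem_filter.mp hn).1).1
        omega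
      split_ifs with hR
      · have h9 : ind R e.primeFactors = 1 := by
          unfold ind
          rw [if_pos]
          intro p hp
          have hp' := Nat.mem_primeFactors.mp (Finset.mem_coe.mp hp)
          exact hR p hp'.1 hp'.2.1
        simp only [h9, mul_one]
        exact le_rfl
      · exact mul_nonneg (hw0 ⟨n, e⟩) (ind_nonneg _ _)
    · rintro ⟨n, e⟩ ht
      rw [hT, Finset.mem_sigma, Finset.mem_filter, Finset.mem_filter] at ht
      have hn0 : n ≠ 0 := by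
        have h10 : x ≤ n := (Finset.mem_Ico.mp ht.1.1).1
        omega
      exact card_le_omega (by omega) hn0 ht.1.2 h2 h4 ht.1.1
        (Nat.primeFactors_mono (Nat.dvd_of_mem_divisors ht.2.1) hn0)
    · rw [mul_assoc, ← Real.rpow_add (by norm_num)]
      apply mul_le_mul_of_nonneg_left _ hh0.le
      apply Real.rpow_le_rpow_of_exponent_le (by norm_num)
      apply le_of_eq
      ring
    · intro A
      refine le_trans ?_ (hK1 k0 (by omega) k x h hk h1 h2 h3 h4 A)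
      rw [Finset.sum_filter, hT, Finset.sum_sigma]
      refine Finset.sum_le_sum fun n _ => ?_
      rw [← Finset.sum_filter, Finset.filter_filter]
      refine Finset.sum_le_sum fun e _ => ?_
      exact mul_le_mul_of_nonneg_left (prod_PP_le S k0 A _) (hw0 ⟨n, e⟩)

end Pool.Agent.Helper26.KS
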